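import Pool.Agent.ZPU.StmtsB

/-!
# ZPU, row BAD: count of the bad coefficient vectors
-/

set_option autoImplicit false

namespace Pool.Agent.ZPU.H23

open Polynomial

theorem cyl_two {ι V : Type} [Fintype ι] [DecidableEq ι] [Fintype V] {a b : ι} (hab : a ≠ b)
    (S : Set (V × V)) : {f : ι → V | (f a, f b) ∈ S}.ncard * Nat.card V ^ 2 ≤
      S.ncard * Nat.card V ^ Nat.card ι := by
  let T : Set (ι → V) := {f : ι → V | (f a, f b) ∈ S}
  let F : T × (V × V) → S × (ι → V) := fun x =>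
    (⟨(x.1.1 a, x.1.1 b), x.1.2⟩, Function.update (Function.update x.1.1 a x.2.1) b x.2.2)
  have hF : Function.Injective F := by
    rintro ⟨⟨f, hf⟩, x, y⟩ ⟨⟨f', hf'⟩, x', y'⟩ h
    simp only [F, Prod.mk.injEq, Subtype.mk.injEq] at h
    obtain ⟨⟨h1, h2⟩, h3⟩ := h
    have hb := congrFun h3 b
    have ha := congrFun h3 a
    rw [Function.update_self, Function.update_self] at hb
    rw [Function.update_of_ne hab, Function.update_of_ne hab, Function.update_self,
      Function.update_self] at ha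
    have hff : f = f' := by
      funext c
      by_cases hca : c = a
      · rw [hca]; exact h1
      · by_cases hcb : c = b
        · rw [hcb]; exact h2
        · have hc := congrFun h3 c
          rwa [Function.update_of_ne hcb, Function.update_of_ne hcb, Function.update_of_ne hca,
            Function.update_of_ne hca] at hc
    subst hff ha hb
    rfl
  have h := Nat.card_le_card_of_injective F hF
  rw [Nat.card_prod, Nat.card_prod, Nat.card_prod, Nat.card_fun] at h
  rw [pow_two]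
  exact h

theorem cyl_one {ι : Type} [Fintype ι] [DecidableEq ι] {p d : ℕ} [NeZero p] (a : ι) :
    {f : ι → Fin (d + 1) → ZMod p | f a (Fin.last d) = 0}.ncard * p ≤
      (p ^ (d + 1)) ^ Nat.card ι := by
  let T : Set (ι → Fin (d + 1) → ZMod p) := {f | f a (Fin.last d) = 0}
  let F : T × ZMod p → (ι → Fin (d + 1) → ZMod p) := fun x =>
    Function.update x.1.1 a (Function.update (x.1.1 a) (Fin.last d) x.2)
  have hF : Function.Injective F := by
    rintro ⟨⟨f, hf⟩, x⟩ ⟨⟨f', hf'⟩, x'⟩ h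
    have ha := congrFun h a
    simp only [F, Function.update_self] at ha
    have hx : x = x' := by
      have := congrFun ha (Fin.last d)
      simpa using this
    have hfa : f a = f' a := by
      funext j
      by_cases hj : j = Fin.last d
      · have h1 : f a (Fin.last d) = 0 := hf
        have h2 : f' a (Fin.last d) = 0 := hf'
        rw [hj, h1, h2]
      · have := congrFun ha j
        rwa [Function.update_of_ne hj, Function.update_of_ne hj] at this
    have hff : f = f' := by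
      funext c
      by_cases hc : c = a
      · rw [hc]; exact hfa
      · have := congrFun h c
        simp only [F] at this
        rwa [Function.update_of_ne hc, Function.update_of_ne hc] at this
    subst hff hx
    rfl
  have h := Nat.card_le_card_of_injective F hF
  rw [Nat.card_prod, Nat.card_fun, Nat.card_fun, Nat.card_zmod, Nat.card_fin] at h
  exact h

/-- pairs of polynomials which are not coprime, leading coefficients nonzero -/
def ncp (p d : ℕ) : Set ((Fin (d + 1) → ZMod p) × (Fin (d + 1) → ZMod p)) :=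
  {w | w.1 (Fin.last d) ≠ 0 ∧ w.2 (Fin.last d) ≠ 0 ∧ ¬ IsCoprime (pv w.1) (pv w.2)}

/-- the vectors as functions on `2 n` indices -/
def cmb {n d p : ℕ} (w : (Fin n → Fin (d + 1) → ZMod p) × (Fin n → Fin (d + 1) → ZMod p)) :
    Fin n ⊕ Fin n → Fin (d + 1) → ZMod p := Sum.elim w.1 w.2

theorem cmb_inj {n d p : ℕ} : Function.Injective (cmb (n := n) (d := d) (p := p)) := by
  rintro ⟨a, b⟩ ⟨a', b'⟩ h
  have h1 : a = a' := by
    funext i
    exact congrFun h (Sum.inl i)
  have h2 : b = b' := by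
    funext i
    exact congrFun h (Sum.inr i)
  rw [h1, h2]

theorem cnt_two (hCNT : CNTStmt) {p : ℕ} (hp : p.Prime) (n d : ℕ) {a b : Fin n ⊕ Fin n}
    (hab : a ≠ b) :
    {w : (Fin n → Fin (d + 1) → ZMod p) × (Fin n → Fin (d + 1) → ZMod p) |
      (cmb w a, cmb w b) ∈ ncp p d}.ncard * p ≤ 2 * p ^ (2 * n * (d + 1)) := by
  haveI : Fact p.Prime := ⟨hp⟩
  haveI : NeZero p := ⟨hp.pos.ne'⟩
  have h1 : {w : (Fin n → Fin (d + 1) → ZMod p) × (Fin n → Fin (d + 1) → ZMod p) |
      (cmb w a, cmb w b) ∈ ncp p d}.ncard ≤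
      {f : Fin n ⊕ Fin n → Fin (d + 1) → ZMod p | (f a, f b) ∈ ncp p d}.ncard := by
    refine Set.ncard_le_ncard_of_injOn cmb (fun w hw => hw) cmb_inj.injOn (Set.toFinite _)
  have h2 := cyl_two hab (ncp p d)
  have h3 := hCNT p hp d
  change (ncp p d).ncard * p ≤ _ at h3
  rw [Nat.card_fun, Nat.card_zmod, Nat.card_fin, Nat.card_sum, Nat.card_fin] at h2
  have e1 : (p ^ (d + 1)) ^ 2 = p ^ (2 * (d + 1)) := by
    rw [← pow_mul]
    ring_nf
  have e2 : (p ^ (d + 1)) ^ (n + n) = p ^ (2 * n * (d + 1)) := by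
    rw [← pow_mul]
    ring_nf
  rw [e1, e2] at h2
  have h4 : 0 < p ^ (2 * (d + 1)) := pow_pos hp.pos _
  have h5 : ({w : (Fin n → Fin (d + 1) → ZMod p) × (Fin n → Fin (d + 1) → ZMod p) |
      (cmb w a, cmb w b) ∈ ncp p d}.ncard * p) * p ^ (2 * (d + 1)) ≤
      (2 * p ^ (2 * n * (d + 1))) * p ^ (2 * (d + 1)) := by
    calc _ ≤ ({f : Fin n ⊕ Fin n → Fin (d + 1) → ZMod p | (f a, f b) ∈ ncp p d}.ncard * p) *
          p ^ (2 * (d + 1)) := by
          exact Nat.mul_le_mul_right _ (Nat.mul_le_mul_right _ h1)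
      _ = ({f : Fin n ⊕ Fin n → Fin (d + 1) → ZMod p | (f a, f b) ∈ ncp p d}.ncard *
          p ^ (2 * (d + 1))) * p := by ring
      _ ≤ ((ncp p d).ncard * p ^ (2 * n * (d + 1))) * p := Nat.mul_le_mul_right _ h2
      _ = ((ncp p d).ncard * p) * p ^ (2 * n * (d + 1)) := by ring
      _ ≤ (2 * p ^ (2 * (d + 1))) * p ^ (2 * n * (d + 1)) := Nat.mul_le_mul_right _ h3
      _ = _ := by ring
  exact Nat.le_of_mul_le_mul_right h5 h4

theorem cnt_one {p : ℕ} (hp : p.Prime) (n d : ℕ) (a : Fin n ⊕ Fin n) :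
    {w : (Fin n → Fin (d + 1) → ZMod p) × (Fin n → Fin (d + 1) → ZMod p) |
      cmb w a (Fin.last d) = 0}.ncard * p ≤ p ^ (2 * n * (d + 1)) := by
  haveI : NeZero p := ⟨hp.pos.ne'⟩
  haveI : Fact p.Prime := ⟨hp⟩
  have h1 : {w : (Fin n → Fin (d + 1) → ZMod p) × (Fin n → Fin (d + 1) → ZMod p) |
      cmb w a (Fin.last d) = 0}.ncard ≤
      {f : Fin n ⊕ Fin n → Fin (d + 1) → ZMod p | f a (Fin.last d) = 0}.ncard := by
    refine Set.ncard_le_ncard_of_injOn cmb (fun w hw => hw) cmb_inj.injOn (Set.toFinite _)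
  have h2 := cyl_one (p := p) (d := d) a
  rw [Nat.card_sum, Nat.card_fin] at h2
  have e2 : (p ^ (d + 1)) ^ (n + n) = p ^ (2 * n * (d + 1)) := by
    rw [← pow_mul]
    ring_nf
  rw [e2] at h2
  exact le_trans (Nat.mul_le_mul_right _ h1) h2

theorem ncard_iUnion_mul {α κ : Type} [Fintype κ] (s : κ → Set α) [Finite α] (p N : ℕ)
    (h : ∀ i, (s i).ncard * p ≤ N) : (⋃ i, s i).ncard * p ≤ Fintype.card κ * N := by
  classical
  have h1 : (⋃ i, s i).ncard ≤ ∑ i, (s i).ncard := Set.ncard_iUnion_le_of_fintype s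
  calc _ ≤ (∑ i, (s i).ncard) * p := Nat.mul_le_mul_right _ h1
    _ = ∑ i, (s i).ncard * p := Finset.sum_mul ..
    _ ≤ ∑ _i : κ, N := Finset.sum_le_sum (fun i _ => h i)
    _ = _ := by
      rw [Finset.sum_const, smul_eq_mul, Finset.card_univ]

/-- **BAD** -/
theorem bad (hCNT : CNTStmt) : BADStmt := by
  classical
  intro p hp n d
  haveI : NeZero p := ⟨hp.pos.ne'⟩
  haveI : Fact p.Prime := ⟨hp⟩
  let W := (Fin n → Fin (d + 1) → ZMod p) × (Fin n → Fin (d + 1) → ZMod p)
  let A : Fin n ⊕ Fin n → Set W := fun a => {w | cmb w a (Fin.last d) = 0}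
  let P : Fin 3 × Fin n × Fin n → (Fin n ⊕ Fin n) × (Fin n ⊕ Fin n) := fun x =>
    if x.1 = 0 then (Sum.inl x.2.1, Sum.inr x.2.2) else
      if x.1 = 1 then (Sum.inl x.2.1, Sum.inl x.2.2) else (Sum.inr x.2.1, Sum.inr x.2.2)
  let S : Fin 3 × Fin n × Fin n → Set W := fun x =>
    {w | (P x).1 ≠ (P x).2 ∧ (cmb w (P x).1, cmb w (P x).2) ∈ ncp p d}
  have hsub : badR p n d ⊆ (⋃ a, A a) ∪ ⋃ x, S x := by
    intro w hw
    by_cases hA : w ∈ ⋃ a, A a
    · exact Or.inl hA
    · right
      have hA' : ∀ a, cmb w a (Fin.last d) ≠ 0 := by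
        intro a ha
        exact hA (Set.mem_iUnion.2 ⟨a, ha⟩)
      have h1 : ∀ i, w.1 i (Fin.last d) ≠ 0 := fun i => hA' (Sum.inl i)
      have h2 : ∀ i, w.2 i (Fin.last d) ≠ 0 := fun i => hA' (Sum.inr i)
      rcases hw with ⟨i, h | h⟩ | ⟨i, j, h⟩ | ⟨i, j, hij, h | h⟩
      · exact absurd h (h1 i)
      · exact absurd h (h2 i)
      · refine Set.mem_iUnion.2 ⟨(0, i, j), ?_⟩
        refine ⟨?_, h1 i, h2 j, h⟩
        simp [P]
      · refine Set.mem_iUnion.2 ⟨(1, i, j), ?_⟩
        refine ⟨?_, h1 i, h1 j, h⟩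
        simpa [P] using hij
      · refine Set.mem_iUnion.2 ⟨(2, i, j), ?_⟩
        refine ⟨?_, h2 i, h2 j, h⟩
        simpa [P] using hij
  have hA1 : (⋃ a, A a).ncard * p ≤ (2 * n) * p ^ (2 * n * (d + 1)) := by
    have := ncard_iUnion_mul A p _ (fun a => cnt_one hp n d a)
    rw [Fintype.card_sum, Fintype.card_fin] at this
    have e : n + n = 2 * n := by ring
    rwa [e] at this
  have hS1 : (⋃ x, S x).ncard * p ≤ (3 * n ^ 2) * (2 * p ^ (2 * n * (d + 1))) := by
    have := ncard_iUnion_mul S p (2 * p ^ (2 * n * (d + 1))) (fun x => by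
      by_cases hx : (P x).1 ≠ (P x).2
      · have h3 := cnt_two hCNT hp n d hx
        refine le_trans (Nat.mul_le_mul_right _ ?_) h3
        exact Set.ncard_le_ncard (fun w hw => hw.2) (Set.toFinite _)
      · have : S x = ∅ := by
          ext w
          simp only [S, Set.mem_setOf_eq, Set.mem_empty_iff_false, iff_false]
          exact fun h => hx h.1
        rw [this]
        simp)
    rw [Fintype.card_prod, Fintype.card_prod, Fintype.card_fin, Fintype.card_fin] at this
    have e : 3 * (n * n) = 3 * n ^ 2 := by ring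
    rwa [e] at this
  calc (badR p n d).ncard * p ≤ (((⋃ a, A a) ∪ ⋃ x, S x).ncard) * p :=
        Nat.mul_le_mul_right _ (Set.ncard_le_ncard hsub (Set.toFinite _))
    _ ≤ ((⋃ a, A a).ncard + (⋃ x, S x).ncard) * p :=
        Nat.mul_le_mul_right _ (Set.ncard_union_le _ _)
    _ = (⋃ a, A a).ncard * p + (⋃ x, S x).ncard * p := by ring
    _ ≤ (2 * n) * p ^ (2 * n * (d + 1)) + (3 * n ^ 2) * (2 * p ^ (2 * n * (d + 1))) :=
        Nat.add_le_add hA1 hS1
    _ = _ := by ring

end Pool.Agent.ZPU.H23
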